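import Pool.Agent.K3h83.IN.Stm6
import Pool.Agent.K3h3.KB.Pi
import Pool.Agent.Q90.WR.Rep

/-!
# Characters of a group with a cyclic self-centralizing normal `p`-subgroup
-/

set_option autoImplicit false
set_option linter.unusedSectionVars false
set_option linter.style.haveILetI false

open scoped BigOperators Classical

noncomputable section

namespace Pool.Agent.K3h90.CY

open Pool.Agent.Helper884 Pool.Agent.K3h3.KB Pool.Agent.K3h3.MK Pool.Agent.K3h83.IN
open Pool.Agent.H254R3.IN (IsIrr mem_Irr)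
open IC (Irr)
open Pool.Agent.Q90.WR (irr_of_norm B_nat)

section ind

variable {B : Type} [Group B] [Fintype B] (P : Subgroup B)

/-- extension by zero -/
def E (l : P →* ℂˣ) (g : B) : ℂ := if h : g ∈ P then ((l ⟨g, h⟩ : ℂˣ) : ℂ) else 0

theorem E_coe (l : P →* ℂˣ) (x : P) : E P l x = ((l x : ℂˣ) : ℂ) := by
  unfold E
  rw [dif_pos x.2]

theorem E_not (l : P →* ℂˣ) {g : B} (h : g ∉ P) : E P l g = 0 := by
  unfold E
  rw [dif_neg h]

/-- the induced character -/
def ind (l : P →* ℂˣ) (g : B) : ℂ := (Nat.card P : ℂ)⁻¹ * ∑ n : B, E P l (n⁻¹ * g * n)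

theorem ind_class (l : P →* ℂˣ) : IC.IsClass (ind P l) := by
  intro g y
  unfold ind
  congr 1
  refine Fintype.sum_equiv (Equiv.mulLeft y⁻¹) _ _ fun n => ?_
  simp only [Equiv.coe_mulLeft]
  congr 1
  group

theorem sum_E (l : P →* ℂˣ) (f : B → ℂ) :
    ∑ g : B, E P l g * f g = ∑ x : P, ((l x : ℂˣ) : ℂ) * f x := by
  symm
  refine Fintype.sum_of_injective (fun x : P => (x : B)) Subtype.val_injective _ _ ?_ ?_
  · intro g hg
    rw [E_not P l, zero_mul]
    intro h
    exact hg ⟨⟨g, h⟩, rfl⟩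
  · intro x
    rw [E_coe]

theorem card_P_ne : (Nat.card P : ℂ) ≠ 0 := by
  exact_mod_cast Nat.card_pos.ne'

theorem card_B_ne : (Nat.card B : ℂ) ≠ 0 := by
  exact_mod_cast Nat.card_pos.ne'

theorem ind_B (l : P →* ℂˣ) {χ : B → ℂ} (hχ : IC.IsClass χ) :
    IC.B (ind P l) χ = IC.B (fun x : P => ((l x : ℂˣ) : ℂ)) (fun x : P => χ x) := by
  have h1 : ∀ n : B, ∑ g : B, E P l (n⁻¹ * g * n) * χ g⁻¹ = ∑ g : B, E P l g * χ g⁻¹ := by
    intro n
    refine Fintype.sum_equiv (MulAut.conj n⁻¹).toEquiv _ _ fun g => ?_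
    have h2 : (MulAut.conj n⁻¹).toEquiv g = n⁻¹ * g * n := by
      simp
    rw [h2]
    congr 1
    have h3 : (n⁻¹ * g * n)⁻¹ = n⁻¹ * g⁻¹ * n⁻¹⁻¹ := by group
    rw [h3, hχ]
  have h4 : ∑ g : B, ind P l g * χ g⁻¹ =
      (Nat.card P : ℂ)⁻¹ * (Nat.card B * ∑ x : P, ((l x : ℂˣ) : ℂ) * χ ((x : B)⁻¹)) := by
    have h0 : ∀ g : B, ind P l g * χ g⁻¹ =
        (Nat.card P : ℂ)⁻¹ * ∑ n : B, E P l (n⁻¹ * g * n) * χ g⁻¹ := by
      intro g
      unfold ind
      rw [mul_assoc, Finset.sum_mul]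
    rw [Finset.sum_congr rfl fun g _ => h0 g, ← Finset.mul_sum, Finset.sum_comm,
      Finset.sum_congr rfl fun n _ => h1 n, Finset.sum_const, Finset.card_univ, nsmul_eq_mul,
      sum_E P l fun g => χ g⁻¹, Nat.card_eq_fintype_card (α := B)]
  unfold IC.B
  rw [h4]
  have h5 : ∀ x : P, χ ((x⁻¹ : P) : B) = χ ((x : B)⁻¹) := fun x => rfl
  simp_rw [h5]
  field_simp [card_B_ne (B := B), card_P_ne P]

variable [P.Normal]

/-- conjugate character -/
def cj (n : B) (l : P →* ℂˣ) : P →* ℂˣ := l.comp (MulAut.conjNormal n⁻¹).toMonoidHom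

theorem cj_apply (n : B) (l : P →* ℂˣ) (x y : P) (h : (y : B) = n⁻¹ * x * n) :
    cj P n l x = l y := by
  unfold cj
  have h1 : MulAut.conjNormal n⁻¹ x = y := by
    apply Subtype.ext
    rw [MulAut.conjNormal_apply, h, inv_inv]
  change l (MulAut.conjNormal n⁻¹ x) = l y
  rw [h1]

theorem E_conj (n : B) (l : P →* ℂˣ) (x : P) :
    E P l (n⁻¹ * x * n) = ((cj P n l x : ℂˣ) : ℂ) := by
  have h : n⁻¹ * (x : B) * n ∈ P := by
    have := (inferInstance : P.Normal).conj_mem x x.2 n⁻¹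
    rwa [inv_inv] at this
  rw [cj_apply P n l x ⟨_, h⟩ rfl, ← E_coe]

theorem ind_coe (l : P →* ℂˣ) (x : P) :
    ind P l x = (Nat.card P : ℂ)⁻¹ * ∑ n : B, ((cj P n l x : ℂˣ) : ℂ) := by
  unfold ind
  simp_rw [E_conj]

theorem ind_not (l : P →* ℂˣ) {g : B} (h : g ∉ P) : ind P l g = 0 := by
  unfold ind
  rw [Finset.sum_eq_zero, mul_zero]
  intro n _
  apply E_not
  intro h1
  apply h
  have := (inferInstance : P.Normal).conj_mem _ h1 n
  have h2 : n * (n⁻¹ * g * n) * n⁻¹ = g := by group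
  rwa [h2] at this

theorem ind_one (l : P →* ℂˣ) : ind P l 1 = P.index := by
  have h := ind_coe P l 1
  simp only [map_one, Units.val_one, Finset.sum_const, Finset.card_univ, nsmul_eq_mul,
    mul_one] at h
  have h1 : ((1 : P) : B) = 1 := rfl
  rw [h1] at h
  rw [h, ← Nat.card_eq_fintype_card, ← P.card_mul_index]
  push_cast
  rw [← mul_assoc, inv_mul_cancel₀ (card_P_ne P), one_mul]

theorem lin_B (l m : P →* ℂˣ) : IC.B (fun x : P => ((l x : ℂˣ) : ℂ)) (fun x : P => ((m x : ℂˣ) : ℂ))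
    = if l = m then 1 else 0 := by
  rw [IC.B_irr (lin_irr l) (lin_irr m)]
  have h : (fun x : P => ((l x : ℂˣ) : ℂ)) = (fun x : P => ((m x : ℂˣ) : ℂ)) ↔ l = m := by
    constructor
    · intro h
      ext x
      exact congrFun h x
    · rintro rfl
      rfl
  simp only [h]

theorem ind_ind (l m : P →* ℂˣ) : IC.B (ind P l) (ind P m) =
    (Nat.card P : ℂ)⁻¹ * ∑ n : B, if l = cj P n m then 1 else 0 := by
  rw [ind_B P l (ind_class P m)]
  have h : (fun x : P => ind P m x) =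
      (Nat.card P : ℂ)⁻¹ • ∑ n : B, fun x : P => ((cj P n m x : ℂˣ) : ℂ) := by
    funext x
    rw [ind_coe]
    simp
  rw [h, IC.B_comm, IC.B_smul_left, IC.B_sum_left]
  congr 1
  refine Finset.sum_congr rfl fun n _ => ?_
  rw [IC.B_comm, lin_B]

theorem ind_int (l : P →* ℂˣ) {χ : B → ℂ} (hχ : IsIrr χ) : ∃ n : ℤ, IC.B (ind P l) χ = n := by
  rw [ind_B P l (IC.IsIrrChar.isClass hχ)]
  obtain ⟨V, _, _, _, ρ, _, rfl⟩ := hχ
  obtain ⟨n, hn⟩ := B_nat (IC.oneRep l) (ρ.comp P.subtype)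
  refine ⟨n, ?_⟩
  have e : (fun g => ((l g : ℂˣ) : ℂ)) = (IC.oneRep l).character := by
    funext g
    rw [IC.oneRep_char]
  rw [e]
  have h2 : (fun x : P => ρ.character x) = Representation.character (ρ.comp P.subtype) := rfl
  rw [h2, hn]
  norm_cast

/-- the stabilizers are `P` -/
theorem ind_irr (l : P →* ℂˣ) (hst : ∀ n : B, l = cj P n l ↔ n ∈ P) : IsIrr (ind P l) := by
  refine irr_of_norm (ind_class P l) (fun χ hχ => ind_int P l hχ) ?_ ⟨P.index, ind_one P l⟩
  rw [ind_ind]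
  simp_rw [hst]
  rw [Finset.sum_ite, Finset.sum_const_zero, add_zero, Finset.sum_const, nsmul_eq_mul, mul_one]
  have h : (Finset.univ.filter fun n : B => n ∈ P).card = Nat.card P := by
    rw [Nat.card_eq_fintype_card, Fintype.card_subtype]
  rw [h]
  exact inv_mul_cancel₀ (card_P_ne P)

/-- each fibre of `l ↦ ind l` has `|B / P|` elements -/
theorem fibre (hst : ∀ l : P →* ℂˣ, l ≠ 1 → ∀ n : B, l = cj P n l ↔ n ∈ P)
    [Fintype (P →* ℂˣ)] (l : P →* ℂˣ) (hl : l ≠ 1) :
    ((Finset.univ.filter fun m : P →* ℂˣ => m ≠ 1).filter fun m => ind P m = ind P l).card =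
      P.index := by
  have h1 : ∑ m : P →* ℂˣ, IC.B (ind P m) (ind P l) = P.index := by
    simp_rw [ind_ind]
    rw [← Finset.mul_sum, Finset.sum_comm]
    simp only [Finset.sum_ite_eq', Finset.mem_univ, if_true, Finset.sum_const, Finset.card_univ,
      nsmul_eq_mul, mul_one]
    rw [← Nat.card_eq_fintype_card, ← P.card_mul_index]
    push_cast
    rw [← mul_assoc, inv_mul_cancel₀ (card_P_ne P), one_mul]
  have h2 : ∀ m : P →* ℂˣ, IC.B (ind P m) (ind P l) =
      if m ≠ 1 ∧ ind P m = ind P l then 1 else 0 := by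
    intro m
    by_cases hm : m = 1
    · subst hm
      rw [if_neg (by tauto), ind_ind, Finset.sum_eq_zero, mul_zero]
      intro n _
      rw [if_neg]
      intro h
      apply hl
      ext x
      have h3 : ((n * x * n⁻¹ : B)) ∈ P := (inferInstance : P.Normal).conj_mem x x.2 n
      have h4 := cj_apply P n l ⟨_, h3⟩ x (by
        change (x : B) = n⁻¹ * (n * x * n⁻¹) * n
        group)
      rw [← h] at h4
      rw [← h4]
      rfl
    · rw [IC.B_irr (ind_irr P m (hst m hm)) (ind_irr P l (hst l hl))]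
      simp [hm]
  simp_rw [h2] at h1
  rw [Finset.sum_ite, Finset.sum_const_zero, add_zero, Finset.sum_const, nsmul_eq_mul, mul_one] at h1
  rw [Finset.filter_filter]
  exact_mod_cast h1

theorem sum_dual [Fintype (P →* ℂˣ)] (hc : ∀ x y : P, x * y = y * x) (x : P) (hx : x ≠ 1) :
    ∑ m : P →* ℂˣ, ((m x : ℂˣ) : ℂ) = 0 := by
  letI : CommGroup P := { (inferInstance : Group P) with mul_comm := hc }
  obtain ⟨φ, hφ⟩ := CommGroup.exists_apply_ne_one_of_hasEnoughRootsOfUnity P ℂ hx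
  have h1 : ∑ m : P →* ℂˣ, ((m x : ℂˣ) : ℂ) = ((φ x : ℂˣ) : ℂ) * ∑ m : P →* ℂˣ, ((m x : ℂˣ) : ℂ) := by
    rw [Finset.mul_sum]
    refine Fintype.sum_equiv (Equiv.mulLeft φ⁻¹) _ _ fun m => ?_
    simp only [Equiv.coe_mulLeft]
    rw [MonoidHom.mul_apply, MonoidHom.inv_apply, Units.val_mul, ← mul_assoc, ← Units.val_mul,
      mul_inv_cancel, Units.val_one, one_mul]
  have h2 : (((φ x : ℂˣ) : ℂ) - 1) * ∑ m : P →* ℂˣ, ((m x : ℂˣ) : ℂ) = 0 := by
    rw [sub_mul, ← h1, one_mul, sub_self]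
  rcases mul_eq_zero.1 h2 with h3 | h3
  · exfalso
    apply hφ
    ext
    rw [Units.val_one]
    exact sub_eq_zero.1 h3
  · exact h3

/-- sum over the induced characters at a nontrivial element of `P` -/
theorem sum_ind (hst : ∀ l : P →* ℂˣ, l ≠ 1 → ∀ n : B, l = cj P n l ↔ n ∈ P)
    [Fintype (P →* ℂˣ)] (hc : ∀ x y : P, x * y = y * x) (x : P) (hx : x ≠ 1) :
    ∑ χ ∈ (Finset.univ.filter fun m : P →* ℂˣ => m ≠ 1).image (ind P), χ x = -1 := by
  set Λ := Finset.univ.filter fun m : P →* ℂˣ => m ≠ 1 with hΛ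
  have h1 : ∑ m ∈ Λ, ind P m x = (P.index : ℂ) * ∑ χ ∈ Λ.image (ind P), χ x := by
    rw [Finset.mul_sum, ← Finset.sum_fiberwise_of_maps_to (t := Λ.image (ind P)) (g := ind P)
      (fun m hm => Finset.mem_image_of_mem _ hm)]
    refine Finset.sum_congr rfl fun χ hχ => ?_
    obtain ⟨l, hl, rfl⟩ := Finset.mem_image.1 hχ
    rw [Finset.sum_congr rfl (g := fun _ => ind P l x), Finset.sum_const, nsmul_eq_mul,
      fibre P hst l (by simpa [hΛ] using hl)]
    intro m hm
    rw [(Finset.mem_filter.1 hm).2]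
  have h2 : ∀ y : P, y ≠ 1 → ∑ m ∈ Λ, ((m y : ℂˣ) : ℂ) = -1 := by
    intro y hy
    have h3 := sum_dual P hc y hy
    have h4 : Λ = Finset.univ.erase 1 := by
      ext m
      simp [hΛ]
    rw [h4]
    rw [← Finset.add_sum_erase _ _ (Finset.mem_univ (1 : P →* ℂˣ))] at h3
    rw [MonoidHom.one_apply, Units.val_one] at h3
    linear_combination h3
  have h5 : ∑ m ∈ Λ, ind P m x = -(P.index : ℂ) := by
    simp_rw [ind_coe]
    rw [← Finset.mul_sum, Finset.sum_comm]
    have h6 : ∀ n : B, ∑ m ∈ Λ, ((cj P n m x : ℂˣ) : ℂ) = -1 := by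
      intro n
      have h7 : ((n⁻¹ * x * n : B)) ∈ P := by
        have := (inferInstance : P.Normal).conj_mem x x.2 n⁻¹
        rwa [inv_inv] at this
      rw [← h2 ⟨_, h7⟩]
      · refine Finset.sum_congr rfl fun m _ => ?_
        rw [cj_apply P n m x ⟨_, h7⟩ rfl]
      · intro h8
        apply hx
        have h9 : (n⁻¹ * x * n : B) = 1 := congrArg Subtype.val h8
        apply Subtype.ext
        have h10 : (x : B) = n * (n⁻¹ * x * n) * n⁻¹ := by group
        rw [h10, h9]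
        simp
    rw [Finset.sum_congr rfl fun n _ => h6 n, Finset.sum_const, Finset.card_univ, nsmul_eq_mul,
      ← Nat.card_eq_fintype_card, ← P.card_mul_index]
    push_cast
    have := card_P_ne P
    field_simp
  have h6 : (P.index : ℂ) ≠ 0 := by
    exact_mod_cast Subgroup.index_ne_zero_of_finite
  rw [h5] at h1
  apply mul_left_cancel₀ h6
  rw [← h1]
  ring

end ind

theorem card_dual' {A : Type} [Group A] [Finite A] (hc : ∀ x y : A, x * y = y * x) :
    Nat.card (A →* ℂˣ) = Nat.card A := by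
  letI : CommGroup A := { (inferInstance : Group A) with mul_comm := hc }
  exact CommGroup.card_monoidHom_of_hasEnoughRootsOfUnity A ℂ

theorem finite_dual {A : Type} [Group A] [Finite A] (hc : ∀ x y : A, x * y = y * x) :
    Finite (A →* ℂˣ) := by
  apply Nat.finite_of_card_ne_zero
  rw [card_dual' hc]
  exact Nat.card_pos.ne'

theorem sum_dual' {A : Type} [Group A] [Finite A] [Fintype (A →* ℂˣ)]
    (hc : ∀ x y : A, x * y = y * x) (x : A) (hx : x ≠ 1) :
    ∑ m : A →* ℂˣ, ((m x : ℂˣ) : ℂ) = 0 := by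
  letI : CommGroup A := { (inferInstance : Group A) with mul_comm := hc }
  obtain ⟨φ, hφ⟩ := CommGroup.exists_apply_ne_one_of_hasEnoughRootsOfUnity A ℂ hx
  have h1 : ∑ m : A →* ℂˣ, ((m x : ℂˣ) : ℂ) = ((φ x : ℂˣ) : ℂ) * ∑ m : A →* ℂˣ, ((m x : ℂˣ) : ℂ) := by
    rw [Finset.mul_sum]
    refine Fintype.sum_equiv (Equiv.mulLeft φ⁻¹) _ _ fun m => ?_
    simp only [Equiv.coe_mulLeft]
    rw [MonoidHom.mul_apply, MonoidHom.inv_apply, Units.val_mul, ← mul_assoc, ← Units.val_mul,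
      mul_inv_cancel, Units.val_one, one_mul]
  have h2 : (((φ x : ℂˣ) : ℂ) - 1) * ∑ m : A →* ℂˣ, ((m x : ℂˣ) : ℂ) = 0 := by
    rw [sub_mul, ← h1, one_mul, sub_self]
  rcases mul_eq_zero.1 h2 with h3 | h3
  · exfalso
    apply hφ
    ext
    rw [Units.val_one]
    exact sub_eq_zero.1 h3
  · exact h3

theorem sum_deg {B : Type} [Group B] [Fintype B] :
    ∑ χ ∈ Irr B, χ 1 * χ 1 = (Nat.card B : ℂ) := by
  set δ : B → ℂ := fun g => if g = 1 then 1 else 0 with hδ
  have h1 : IC.IsClass δ := by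
    intro g y
    simp only [hδ]
    congr 1
    simp
  have h2 : ∀ χ : B → ℂ, IC.B δ χ = (Nat.card B : ℂ)⁻¹ * χ 1 := by
    intro χ
    unfold IC.B
    simp [hδ]
  have h3 := congrFun (IC.expand δ h1) 1
  simp only [Finset.sum_apply, Pi.smul_apply, smul_eq_mul, h2] at h3
  have h4 : δ 1 = 1 := by simp [hδ]
  rw [h4] at h3
  simp_rw [mul_assoc] at h3
  rw [← Finset.mul_sum] at h3
  have h5 := card_B_ne (B := B)
  field_simp at h3
  simp_rw [← pow_two]
  exact h3.symm

section loc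

variable {p : ℕ} [Fact p.Prime] {B : Type} [Group B] [Fintype B] {Q P : Subgroup B}

theorem cent (h : LC p Q P ⊥) : Subgroup.centralizer (Q : Set B) = P := by
  rw [h.cen, bot_sup_eq]

theorem P_normal (h : LC p Q P ⊥) : P.Normal := by
  rw [← cent h]
  haveI := h.nQ
  infer_instance

theorem P_comm (h : LC p Q P ⊥) (x y : P) : x * y = y * x := by
  haveI := h.cyc
  exact (IsCyclic.commGroup (α := P)).mul_comm x y

theorem mem_of_comm (h : LC p Q P ⊥) {n : B} (hn : ∀ y ∈ Q, n * y * n⁻¹ = y) : n ∈ P := by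
  rw [← cent h, Subgroup.mem_centralizer_iff]
  intro y hy
  have := hn y hy
  calc y * n = n * y * n⁻¹ * n := by rw [this]
    _ = n * y := by group

theorem quot_comm (h : LC p Q P ⊥) [P.Normal] (x y : B ⧸ P) : x * y = y * x := by
  induction x using QuotientGroup.induction_on with | _ a
  induction y using QuotientGroup.induction_on with | _ b
  rw [← QuotientGroup.mk_mul, ← QuotientGroup.mk_mul, QuotientGroup.eq]
  haveI := h.nQ
  haveI : IsCyclic Q := isCyclic_of_prime_card h.cQ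
  apply mem_of_comm h
  intro z hz
  obtain ⟨m, hm⟩ := MonoidHom.map_cyclic (MulAut.conjNormal a : MulAut Q).toMonoidHom
  obtain ⟨k, hk⟩ := MonoidHom.map_cyclic (MulAut.conjNormal b : MulAut Q).toMonoidHom
  have hm' : ∀ y : Q, a * (y : B) * a⁻¹ = (y : B) ^ m := by
    intro y
    have := congrArg (Subtype.val) (hm y)
    simpa using this
  have hk' : ∀ y : Q, b * (y : B) * b⁻¹ = (y : B) ^ k := by
    intro y
    have := congrArg (Subtype.val) (hk y)
    simpa using this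
  have h1 : ∀ y : Q, (a * b) * (y : B) * (a * b)⁻¹ = (y : B) ^ (k * m) := by
    intro y
    have e1 : (a * b) * (y : B) * (a * b)⁻¹ = a * (b * y * b⁻¹) * a⁻¹ := by group
    have e2 := hm' (y ^ k)
    rw [e1, hk', ← SubgroupClass.coe_zpow, e2, SubgroupClass.coe_zpow, zpow_mul]
  have h2 : ∀ y : Q, (b * a) * (y : B) * (b * a)⁻¹ = (y : B) ^ (m * k) := by
    intro y
    have e1 : (b * a) * (y : B) * (b * a)⁻¹ = b * (a * y * a⁻¹) * b⁻¹ := by group
    have e2 := hk' (y ^ m)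
    rw [e1, hm', ← SubgroupClass.coe_zpow, e2, SubgroupClass.coe_zpow, zpow_mul]
  have h3 := h2 ⟨z, hz⟩
  have h4 := h1 ⟨z, hz⟩
  rw [mul_comm m k, ← h4] at h3
  have e3 : (a * b)⁻¹ * (b * a) * z * ((a * b)⁻¹ * (b * a))⁻¹ =
    (a * b)⁻¹ * ((b * a) * z * (b * a)⁻¹) * (a * b) := by group
  rw [e3]
  simp only at h3
  rw [h3]
  group

theorem stab (h : LC p Q P ⊥) [P.Normal] (l : P →* ℂˣ) (hl : l ≠ 1) (n : B) :
    l = cj P n l ↔ n ∈ P := by
  constructor
  · intro hn
    haveI := h.cyc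
    obtain ⟨k, hk⟩ := MonoidHom.map_cyclic (MulAut.conjNormal n⁻¹ : MulAut P).toMonoidHom
    have hk' : ∀ y : P, n⁻¹ * (y : B) * n = (y : B) ^ k := by
      intro y
      have := congrArg (Subtype.val) (hk y)
      simpa using this
    obtain ⟨x, hx⟩ : ∃ x, l x ≠ 1 := by
      by_contra hcon
      push Not at hcon
      exact hl (MonoidHom.ext hcon)
    have h1 : l x = l x ^ k := by
      conv_lhs => rw [hn]
      rw [cj_apply P n l x (x ^ k) (by rw [SubgroupClass.coe_zpow, hk']), map_zpow]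
    have h2 : l x ^ (k - 1) = 1 := by
      rw [zpow_sub, zpow_one, ← h1, mul_inv_cancel]
    have h3 : (orderOf (l x) : ℤ) ∣ k - 1 := orderOf_dvd_iff_zpow_eq_one.2 h2
    have h4 : p ∣ orderOf (l x) := by
      obtain ⟨c, hc⟩ := IsPGroup.iff_orderOf.1 h.pP x
      have h5 : orderOf (l x) ∣ p ^ c := hc ▸ orderOf_map_dvd l x
      obtain ⟨d, -, hd⟩ := (Nat.dvd_prime_pow Fact.out).1 h5
      rw [hd]
      apply dvd_pow_self
      rintro rfl
      rw [pow_zero, orderOf_eq_one_iff] at hd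
      exact hx hd
    have h5 : (p : ℤ) ∣ k - 1 := (Int.natCast_dvd_natCast.2 h4).trans h3
    have h6 : n⁻¹ ∈ P := by
      apply mem_of_comm h
      intro y hy
      rw [inv_inv]
      have h7 := hk' ⟨y, h.QP hy⟩
      simp only at h7
      rw [h7]
      have h8 : y ^ (p : ℤ) = 1 := by
        have := pow_card_eq_one' (x := (⟨y, hy⟩ : Q))
        rw [h.cQ] at this
        have := congrArg Subtype.val this
        simpa using this
      obtain ⟨t, ht⟩ := h5
      have h9 : k = (p : ℤ) * t + 1 := by linarith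
      rw [h9, zpow_add, zpow_mul, h8, one_zpow, one_mul, zpow_one]
    simpa using P.inv_mem h6
  · intro hn
    ext x
    rw [cj_apply P n l x x]
    have := congrArg Subtype.val (P_comm h ⟨n, hn⟩ x)
    simp only [Subgroup.coe_mul] at this
    rw [mul_assoc, ← this]
    group

theorem sing_mem (h : LC p Q P ⊥) [P.Normal] {g : B} (hg : p ∣ orderOf g) : g ∈ P := by
  have hp := (Fact.out : p.Prime)
  obtain ⟨m, hm⟩ := hg
  have hm0 : 0 < m := by
    rcases Nat.eq_zero_or_pos m with h0 | h0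
    · rw [h0, mul_zero] at hm
      exact absurd hm (orderOf_pos g).ne'
    · exact h0
  have hz : orderOf (g ^ m) = p := by
    rw [orderOf_pow_of_dvd hm0.ne' ⟨p, by rw [hm, mul_comm]⟩, hm, Nat.mul_div_cancel _ hm0]
  have h1 : g ^ m ∈ P := by
    have h2 : ((g ^ m : B) : B ⧸ P) ^ p = 1 := by
      rw [← QuotientGroup.mk_pow, ← hz, pow_orderOf_eq_one]
      rfl
    have h3 : orderOf ((g ^ m : B) : B ⧸ P) ∣ p := orderOf_dvd_of_pow_eq_one h2
    have h4 : orderOf ((g ^ m : B) : B ⧸ P) ∣ P.index := by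
      rw [Subgroup.index]
      exact orderOf_dvd_natCard _
    have h5 : ¬ p ∣ P.index := by
      have := h.idx
      rwa [bot_sup_eq] at this
    rcases (Nat.dvd_prime hp).1 h3 with h6 | h6
    · rw [orderOf_eq_one_iff] at h6
      exact (QuotientGroup.eq_one_iff _).1 h6
    · rw [h6] at h4
      exact absurd h4 h5
  have h2 : g ^ m ∈ Q := by
    haveI := h.cyc
    letI := Fintype.ofFinite P
    letI := Fintype.ofFinite Q
    have h3 := IsCyclic.card_pow_eq_one_le (α := P) hp.pos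
    have h4 : (Finset.univ.image fun y : Q => (⟨y, h.QP y.2⟩ : P)) ⊆
        Finset.univ.filter fun a : P => a ^ p = 1 := by
      intro a ha
      obtain ⟨y, -, rfl⟩ := Finset.mem_image.1 ha
      rw [Finset.mem_filter]
      refine ⟨Finset.mem_univ _, ?_⟩
      have := pow_card_eq_one' (x := y)
      rw [h.cQ] at this
      have := congrArg Subtype.val this
      apply Subtype.ext
      simpa using this
    have h5 : (Finset.univ.image fun y : Q => (⟨y, h.QP y.2⟩ : P)).card = p := by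
      rw [Finset.card_image_of_injective, Finset.card_univ, ← Nat.card_eq_fintype_card, h.cQ]
      intro y y' hy
      exact Subtype.ext (congrArg (fun t : P => (t : B)) hy)
    have h6 := Finset.eq_of_subset_of_card_le h4 (by rw [h5]; exact h3)
    have h7 : (⟨g ^ m, h1⟩ : P) ∈ Finset.univ.filter fun a : P => a ^ p = 1 := by
      rw [Finset.mem_filter]
      refine ⟨Finset.mem_univ _, ?_⟩
      apply Subtype.ext
      change (g ^ m) ^ p = 1
      rw [← hz, pow_orderOf_eq_one]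
    rw [← h6, Finset.mem_image] at h7
    obtain ⟨y, -, hy⟩ := h7
    have h8 : (y : B) = g ^ m := congrArg Subtype.val hy
    rw [← h8]
    exact y.2
  apply mem_of_comm h
  intro y hy
  have h3 : (⟨y, hy⟩ : Q) ∈ Subgroup.zpowers (⟨g ^ m, h2⟩ : Q) := by
    apply mem_zpowers_of_prime_card h.cQ
    intro h4
    have h5 : g ^ m = 1 := congrArg Subtype.val h4
    rw [h5, orderOf_one] at hz
    exact hp.one_lt.ne hz
  obtain ⟨j, hj⟩ := Subgroup.mem_zpowers_iff.1 h3
  have h4 : (g ^ m) ^ j = y := by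
    have := congrArg Subtype.val hj
    simpa using this
  rw [← h4, ← zpow_natCast, ← zpow_mul]
  group

end loc

section main

variable {B : Type} [Group B] [Fintype B] (P : Subgroup B) [P.Normal]

/-- the character of `B` given by a character of `B / P` -/
def infl (φ : (B ⧸ P) →* ℂˣ) (g : B) : ℂ := ((φ (g : B ⧸ P) : ℂˣ) : ℂ)

theorem infl_irr (φ : (B ⧸ P) →* ℂˣ) : IsIrr (infl P φ) :=
  lin_irr (φ.comp (QuotientGroup.mk' P))

theorem infl_inj : Function.Injective (infl P) := by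
  intro φ φ' h
  apply MonoidHom.ext
  intro x
  induction x using QuotientGroup.induction_on with | _ a
  exact Units.ext (congrFun h a)

theorem infl_ne (φ : (B ⧸ P) →* ℂˣ) (l : P →* ℂˣ) (hl : l ≠ 1)
    (hst : ∀ n : B, l = cj P n l ↔ n ∈ P) : infl P φ ≠ ind P l := by
  intro h
  have h1 : IC.B (ind P l) (infl P φ) = 0 := by
    rw [ind_B P l (IC.IsIrrChar.isClass (infl_irr P φ))]
    have h2 : (fun x : P => infl P φ x) = fun x : P => (((1 : P →* ℂˣ) x : ℂˣ) : ℂ) := by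
      funext x
      unfold infl
      rw [(QuotientGroup.eq_one_iff (x : B)).2 x.2, map_one]
      rfl
    rw [h2, lin_B, if_neg hl]
  rw [h, IC.B_irr (ind_irr P l hst) (ind_irr P l hst), if_pos rfl] at h1
  exact one_ne_zero h1

theorem infl_one (φ : (B ⧸ P) →* ℂˣ) : infl P φ 1 = 1 := by
  unfold infl
  rw [QuotientGroup.mk_one, map_one, Units.val_one]

end main

theorem t_C3a : C3a := by
  intro p _ B _ _ Q P h
  letI := Fintype.ofFinite B
  haveI := P_normal h
  have hp := (Fact.out : p.Prime)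
  have hst := stab h
  have hc := P_comm h
  have hq := quot_comm h
  haveI := finite_dual hc
  haveI := finite_dual hq
  letI : Fintype (P →* ℂˣ) := Fintype.ofFinite _
  letI : Fintype ((B ⧸ P) →* ℂˣ) := Fintype.ofFinite _
  set Λ := Finset.univ.filter fun m : P →* ℂˣ => m ≠ 1 with hΛ
  set Ψ := Λ.image (ind P) with hΨ
  have hcardL : Fintype.card ((B ⧸ P) →* ℂˣ) = P.index := by
    rw [← Nat.card_eq_fintype_card, card_dual' hq]
    rfl
  have hΛΨ : Λ.card = Ψ.card * P.index := by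
    rw [Finset.card_eq_sum_card_image (ind P) Λ, ← hΨ, Finset.sum_const_nat]
    intro χ hχ
    obtain ⟨l, hl, rfl⟩ := Finset.mem_image.1 hχ
    exact fibre P hst l (by simpa [hΛ] using hl)
  have hΛ1 : Λ.card + 1 = Nat.card P := by
    have h4 : Λ = Finset.univ.erase 1 := by
      ext m
      simp [hΛ]
    rw [h4, Finset.card_erase_add_one (Finset.mem_univ _), Finset.card_univ,
      ← Nat.card_eq_fintype_card, card_dual' hc]
  have hPp : p ≤ Nat.card P := by
    rw [← h.cQ]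
    exact Nat.le_of_dvd Nat.card_pos (Subgroup.card_dvd_of_le h.QP)
  have hΨpos : 0 < Ψ.card := by
    rcases Nat.eq_zero_or_pos Ψ.card with h0 | h0
    · rw [h0, zero_mul] at hΛΨ
      rw [hΛΨ] at hΛ1
      have := hp.two_le
      omega
    · exact h0
  have hΨirr : ∀ χ ∈ Ψ, IsIrr χ := by
    intro χ hχ
    obtain ⟨l, hl, rfl⟩ := Finset.mem_image.1 hχ
    exact ind_irr P l (hst l (by simpa [hΛ] using hl))
  have hne : ∀ (φ : (B ⧸ P) →* ℂˣ), infl P φ ∉ Ψ := by
    intro φ hφ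
    obtain ⟨l, hl, hl'⟩ := Finset.mem_image.1 hφ
    have hl1 : l ≠ 1 := by simpa [hΛ] using hl
    exact infl_ne P φ l hl1 (hst l hl1) hl'.symm
  have hex : ∀ χ : B → ℂ, IsIrr χ → (∃ φ, infl P φ = χ) ∨ χ ∈ Ψ := by
    by_contra hcon
    push Not at hcon
    obtain ⟨χ, hχ, hχ1, hχ2⟩ := hcon
    set T := (Finset.univ.image (infl P)) ∪ Ψ with hT
    have hTI : T ⊆ Irr B := by
      intro θ hθ
      rcases Finset.mem_union.1 hθ with h1 | h1
      · obtain ⟨φ, -, rfl⟩ := Finset.mem_image.1 h1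
        exact mem_Irr.2 (infl_irr P φ)
      · exact mem_Irr.2 (hΨirr θ h1)
    have hχT : χ ∉ T := by
      intro h1
      rcases Finset.mem_union.1 h1 with h1 | h1
      · obtain ⟨φ, -, hφ⟩ := Finset.mem_image.1 h1
        exact hχ1 φ hφ
      · exact hχ2 h1
    have hdis : Disjoint (Finset.univ.image (infl P)) Ψ := by
      rw [Finset.disjoint_left]
      intro θ h1 h2
      obtain ⟨φ, -, rfl⟩ := Finset.mem_image.1 h1
      exact hne φ h2
    have hsT : ∑ θ ∈ T, θ 1 * θ 1 = (Nat.card B : ℂ) := by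
      rw [hT, Finset.sum_union hdis, Finset.sum_image (fun a _ b _ hab => infl_inj P hab)]
      have e1 : ∀ φ : (B ⧸ P) →* ℂˣ, infl P φ 1 * infl P φ 1 = 1 := fun φ => by
        rw [infl_one, one_mul]
      have e2 : ∀ θ ∈ Ψ, θ 1 * θ 1 = (P.index : ℂ) * P.index := by
        intro θ hθ
        obtain ⟨l, hl, rfl⟩ := Finset.mem_image.1 hθ
        rw [ind_one]
      rw [Finset.sum_congr rfl fun φ _ => e1 φ, Finset.sum_congr rfl e2, Finset.sum_const,
        Finset.sum_const, Finset.card_univ, hcardL, ← P.card_mul_index, ← hΛ1, hΛΨ]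
      simp only [nsmul_eq_mul]
      push_cast
      ring
    have hdeg : ∀ θ : B → ℂ, IsIrr θ → ∃ n : ℕ, 0 < n ∧ (n : ℂ) = θ 1 := fun θ hθ =>
      Pool.Agent.H254R3.IN.IsIrr.deg hθ
    choose! n hn0 hn1 using hdeg
    have hS := sum_deg (B := B)
    rw [← Finset.sum_sdiff hTI, hsT] at hS
    have hS' : ∑ θ ∈ Irr B \ T, θ 1 * θ 1 = 0 := by
      have := hS
      rwa [add_eq_right] at this
    have hS2 : ∑ θ ∈ Irr B \ T, θ 1 * θ 1 = ((∑ θ ∈ Irr B \ T, n θ * n θ : ℕ) : ℂ) := by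
      push_cast
      refine Finset.sum_congr rfl fun θ hθ => ?_
      rw [hn1 θ (mem_Irr.1 (Finset.mem_sdiff.1 hθ).1)]
    rw [hS2] at hS'
    have hS3 : ∑ θ ∈ Irr B \ T, n θ * n θ = 0 := by exact_mod_cast hS'
    have h5 := Finset.sum_eq_zero_iff.1 hS3 χ (Finset.mem_sdiff.2 ⟨mem_Irr.2 hχ, hχT⟩)
    have h6 := hn0 χ hχ
    rcases Nat.mul_eq_zero.1 h5 with h7 | h7 <;> omega
  let a : Fin P.index ≃ ((B ⧸ P) →* ℂˣ) := (Fintype.equivFinOfCardEq hcardL).symm
  let b : Fin Ψ.card ≃ Ψ := Ψ.equivFin.symm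
  have hsa : ∀ g : B, ∑ j, infl P (a j) g = ∑ φ : (B ⧸ P) →* ℂˣ, infl P φ g := fun g =>
    a.sum_comp fun φ => infl P φ g
  have hsb : ∀ g : B, ∑ i, (b i : B → ℂ) g = ∑ χ ∈ Ψ, χ g := fun g => by
    rw [b.sum_comp fun χ : Ψ => (χ : B → ℂ) g]
    exact Finset.sum_coe_sort Ψ fun χ => χ g
  refine ⟨Unit, inferInstance, fun _ => P.index, fun _ => Ψ.card, fun _ j => infl P (a j),
    fun _ i => (b i : B → ℂ), fun _ => Nat.pos_of_ne_zero Subgroup.index_ne_zero_of_finite,
    fun _ => hΨpos, fun _ j => infl_irr P _, fun _ i => hΨirr _ (b i).2, ?_, ?_, ?_, ?_⟩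
  · rintro ⟨⟨⟩, x | x⟩ ⟨⟨⟩, y | y⟩ hxy
    · have h1 : infl P (a x) = infl P (a y) := hxy
      rw [a.injective (infl_inj P h1)]
    · exfalso
      have h1 : infl P (a x) = (b y : B → ℂ) := hxy
      exact hne (a x) (h1 ▸ (b y).2)
    · exfalso
      have h1 : (b x : B → ℂ) = infl P (a y) := hxy
      exact hne (a y) (h1 ▸ (b x).2)
    · have h1 : (b x : B → ℂ) = (b y : B → ℂ) := hxy
      rw [b.injective (Subtype.ext h1)]
  · intro χ hχ
    rcases hex χ hχ with ⟨φ, hφ⟩ | h1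
    · refine ⟨⟨(), Sum.inl (a.symm φ)⟩, ?_⟩
      change infl P (a (a.symm φ)) = χ
      rw [a.apply_symm_apply, hφ]
    · refine ⟨⟨(), Sum.inr (b.symm ⟨χ, h1⟩)⟩, ?_⟩
      change ((b (b.symm ⟨χ, h1⟩) : Ψ) : B → ℂ) = χ
      rw [b.apply_symm_apply]
  · rintro - i g hg
    rw [hsa]
    obtain ⟨l, hl, hl'⟩ := Finset.mem_image.1 (b i).2
    change (b i : B → ℂ) g = _
    rw [← hl']
    by_cases hg1 : g = 1
    · subst hg1
      rw [ind_one, Finset.sum_congr rfl fun φ _ => infl_one P φ, Finset.sum_const,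
        Finset.card_univ, hcardL, nsmul_eq_mul, mul_one]
    · have hgP : g ∉ P := by
        intro h1
        apply hg
        obtain ⟨c, hc'⟩ := IsPGroup.iff_orderOf.1 h.pP ⟨g, h1⟩
        rw [Subgroup.orderOf_mk] at hc'
        rw [hc']
        apply dvd_pow_self
        rintro rfl
        rw [pow_zero, orderOf_eq_one_iff] at hc'
        exact hg1 hc'
      rw [ind_not P l hgP]
      have h1 : ((g : B) : B ⧸ P) ≠ 1 := by
        intro h2
        exact hgP ((QuotientGroup.eq_one_iff g).1 h2)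
      exact (sum_dual' hq _ h1).symm
  · rintro - j g hg
    have hgP := sing_mem h hg
    have hg1 : (⟨g, hgP⟩ : P) ≠ 1 := by
      intro h1
      have h2 : g = 1 := congrArg Subtype.val h1
      rw [h2, orderOf_one] at hg
      exact hp.one_lt.ne' (Nat.dvd_one.1 hg)
    rw [hsb]
    have h1 := sum_ind P hst hc ⟨g, hgP⟩ hg1
    have h2 : infl P (a j) g = 1 := by
      unfold infl
      rw [(QuotientGroup.eq_one_iff g).2 hgP, map_one, Units.val_one]
    change ∑ χ ∈ Ψ, χ g + infl P (a j) g = 0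
    rw [h2]
    have h3 : ∑ χ ∈ Ψ, χ g = -1 := h1
    rw [h3]
    norm_num

end Pool.Agent.K3h90.CY
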